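import Mathlib

/-!
# The core of a subdomain containing the core

We exhibit, in every dimension `n ≥ 2`, domains `ω ⊆ Ω` of `ℂⁿ` with `core Ω ⊆ ω` and
`core ω ≠ core Ω`.

`Ω = {z : |z_j| < 1 for j ≠ 0, |z_0 z_1| < 1, and |z_0| < 1 whenever z_1 = 0}` and `ω` is the unit
polydisc.
-/

open Complex Set Filter Topology Metric InnerProductSpace Laplacian
open scoped ComplexOrder ContDiff

namespace Pool.Agent.Results.MP_902c37_an.CoreSubdomain

/-! ## The definitions used in the statement -/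

/-- The Wirtinger derivative `∂f/∂z_j = (1/2) (∂f/∂x_j - i ∂f/∂y_j)`. -/
noncomputable def dz {n : ℕ} (j : Fin n) (f : (Fin n → ℂ) → ℂ) (z : Fin n → ℂ) : ℂ :=
  (1 / 2) * (fderiv ℝ f z (Pi.single j 1) - I * fderiv ℝ f z (Pi.single j I))

/-- The Wirtinger derivative `∂f/∂\bar z_j = (1/2) (∂f/∂x_j + i ∂f/∂y_j)`. -/
noncomputable def dzbar {n : ℕ} (j : Fin n) (f : (Fin n → ℂ) → ℂ) (z : Fin n → ℂ) : ℂ :=
  (1 / 2) * (fderiv ℝ f z (Pi.single j 1) + I * fderiv ℝ f z (Pi.single j I))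

/-- The Levi form `Lev(φ)(z, ξ) = ∑_{j,k} (∂²φ/∂z_j ∂\bar z_k)(z) ξ_j \bar ξ_k`. -/
noncomputable def levi {n : ℕ} (φ : (Fin n → ℂ) → ℝ) (z ξ : Fin n → ℂ) : ℂ :=
  ∑ j, ∑ k, dz j (dzbar k (fun x => (φ x : ℂ))) z * ξ j * (starRingEnd ℂ) (ξ k)

/-- `φ` is a smooth plurisubharmonic function on the open set `D`: it is `C^∞` on `D` and its Levi
form is nonnegative at every point of `D` (in the order of `ℂ`: real and nonnegative). -/
def SmoothPSH {n : ℕ} (D : Set (Fin n → ℂ)) (φ : (Fin n → ℂ) → ℝ) : Prop :=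
  ContDiffOn ℝ ∞ φ D ∧ ∀ z ∈ D, ∀ ξ : Fin n → ℂ, 0 ≤ levi φ z ξ

/-- `φ` is strictly plurisubharmonic at `z`. -/
def StrictAt {n : ℕ} (φ : (Fin n → ℂ) → ℝ) (z : Fin n → ℂ) : Prop :=
  ∀ ξ : Fin n → ℂ, ξ ≠ 0 → 0 < levi φ z ξ

/-- The core of `D`: the points of `D` at which no smooth plurisubharmonic function on `D` that is
bounded from above is strictly plurisubharmonic. -/
def core {n : ℕ} (D : Set (Fin n → ℂ)) : Set (Fin n → ℂ) :=
  {z | z ∈ D ∧ ¬ ∃ φ : (Fin n → ℂ) → ℝ, SmoothPSH D φ ∧ BddAbove (φ '' D) ∧ StrictAt φ z}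

/-! ## Second derivatives and the Levi form -/

/-- The second derivative as a bilinear form. -/
noncomputable def D2 {E : Type*} [NormedAddCommGroup E] [NormedSpace ℝ E] (φ : E → ℝ) (z u v : E) :
    ℝ :=
  fderiv ℝ (fderiv ℝ φ) z u v

lemma dz_dzbar {n : ℕ} (j k : Fin n) (φ : (Fin n → ℂ) → ℝ) (z : Fin n → ℂ) (h : ContDiffAt ℝ 2 φ z) :
    dz j (dzbar k (fun x => (φ x : ℂ))) z =
      (1 / 4) * ((D2 φ z (Pi.single j 1) (Pi.single k 1) + D2 φ z (Pi.single j I) (Pi.single k I) : ℝ)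
        + I * (D2 φ z (Pi.single j 1) (Pi.single k I) - D2 φ z (Pi.single j I) (Pi.single k 1) : ℝ)) := by
  have h1 : ∀ᶠ x in 𝓝 z, ContDiffAt ℝ 2 φ x := h.eventually (by simp)
  have key : (dzbar k (fun x => (φ x : ℂ))) =ᶠ[𝓝 z]
      fun x => (1 / 2) * ((fderiv ℝ φ x (Pi.single k 1) : ℂ) + I * (fderiv ℝ φ x (Pi.single k I) : ℂ)) := by
    filter_upwards [h1] with x hx
    have hd : DifferentiableAt ℝ φ x := hx.differentiableAt (by simp)
    have : fderiv ℝ (fun x => (φ x : ℂ)) x = ofRealCLM.comp (fderiv ℝ φ x) := by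
      have := (ofRealCLM.hasFDerivAt (x := φ x)).comp x hd.hasFDerivAt
      exact this.fderiv
    unfold dzbar
    rw [this]
    simp
  have hf : DifferentiableAt ℝ (fderiv ℝ φ) z := by
    have : ContDiffAt ℝ 1 (fderiv ℝ φ) z := h.fderiv_right (by norm_num)
    exact this.differentiableAt (by simp)
  have h2 : HasFDerivAt (fun x => (1 / 2 : ℂ) * ((fderiv ℝ φ x (Pi.single k 1) : ℂ) + I * (fderiv ℝ φ x (Pi.single k I) : ℂ)))
      ((1 / 2 : ℂ) • (ofRealCLM.comp ((fderiv ℝ (fderiv ℝ φ) z).flip (Pi.single k 1)) +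
        I • (ofRealCLM.comp ((fderiv ℝ (fderiv ℝ φ) z).flip (Pi.single k I))))) z := by
    have e1 : ∀ v : Fin n → ℂ, HasFDerivAt (fun x => (fderiv ℝ φ x v : ℂ))
        (ofRealCLM.comp ((fderiv ℝ (fderiv ℝ φ) z).flip v)) z := by
      intro v
      have a1 : HasFDerivAt (fun x => fderiv ℝ φ x v) ((fderiv ℝ (fderiv ℝ φ) z).flip v) z := by
        have := hf.hasFDerivAt.clm_apply (hasFDerivAt_const v z)
        simpa using this
      exact (ofRealCLM.hasFDerivAt (x := fderiv ℝ φ z v)).comp z a1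
    exact ((e1 _).add ((e1 _).const_mul I)).const_mul (1/2)
  have h3 : fderiv ℝ (dzbar k (fun x => (φ x : ℂ))) z = _ := (key.fderiv_eq).trans h2.fderiv
  unfold dz
  rw [h3]
  simp [D2]
  ring_nf
  simp
  ring
noncomputable def hB {n : ℕ} (B : (Fin n → ℂ) →L[ℝ] (Fin n → ℂ) →L[ℝ] ℝ) (u v : Fin n → ℂ) : ℂ :=
  ((B u v + B (I • u) (I • v) : ℝ) : ℂ) + I * ((B u (I • v) - B (I • u) v : ℝ) : ℂ)

lemma smul_decomp {n : ℕ} (c : ℂ) (u : Fin n → ℂ) : c • u = c.re • u + c.im • (I • u) := by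
  ext j
  simp only [Pi.smul_apply, Pi.add_apply, smul_eq_mul, real_smul]
  conv_lhs => rw [← re_add_im c]
  ring

lemma I_smul_decomp {n : ℕ} (c : ℂ) (u : Fin n → ℂ) : I • (c • u) = c.re • (I • u) - c.im • u := by
  ext j
  simp only [Pi.smul_apply, Pi.sub_apply, smul_eq_mul, real_smul]
  conv_lhs => rw [← re_add_im c]
  ring_nf
  simp
  ring

lemma hB_smul_left {n : ℕ} (B : (Fin n → ℂ) →L[ℝ] (Fin n → ℂ) →L[ℝ] ℝ) (c : ℂ) (u v : Fin n → ℂ) :
    hB B (c • u) v = c * hB B u v := by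
  unfold hB
  rw [I_smul_decomp c u, smul_decomp c u]
  simp only [map_add, map_sub, map_smul, FunLike.coe_add, FunLike.coe_sub, FunLike.coe_smul,
    Pi.add_apply, Pi.sub_apply, Pi.smul_apply, smul_eq_mul]
  conv_rhs => rw [← re_add_im c]
  apply Complex.ext <;> simp <;> ring

lemma hB_smul_right {n : ℕ} (B : (Fin n → ℂ) →L[ℝ] (Fin n → ℂ) →L[ℝ] ℝ) (c : ℂ) (u v : Fin n → ℂ) :
    hB B u (c • v) = (starRingEnd ℂ) c * hB B u v := by
  unfold hB
  rw [I_smul_decomp c v, smul_decomp c v]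
  simp only [map_add, map_sub, map_smul, smul_eq_mul]
  apply Complex.ext <;> simp <;> ring

lemma hB_sum_left {n : ℕ} {ι : Type*} (s : Finset ι) (B : (Fin n → ℂ) →L[ℝ] (Fin n → ℂ) →L[ℝ] ℝ)
    (u : ι → Fin n → ℂ) (v : Fin n → ℂ) : hB B (∑ i ∈ s, u i) v = ∑ i ∈ s, hB B (u i) v := by
  unfold hB
  simp only [Finset.smul_sum, map_sum, sum_apply]
  rw [Finset.sum_add_distrib, ← Finset.mul_sum, ← ofReal_sum, ← ofReal_sum, Finset.sum_add_distrib,
    Finset.sum_sub_distrib]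

lemma hB_sum_right {n : ℕ} {ι : Type*} (s : Finset ι) (B : (Fin n → ℂ) →L[ℝ] (Fin n → ℂ) →L[ℝ] ℝ)
    (u : Fin n → ℂ) (v : ι → Fin n → ℂ) : hB B u (∑ i ∈ s, v i) = ∑ i ∈ s, hB B u (v i) := by
  unfold hB
  simp only [Finset.smul_sum, map_sum]
  rw [Finset.sum_add_distrib, ← Finset.mul_sum, ← ofReal_sum, ← ofReal_sum, Finset.sum_add_distrib,
    Finset.sum_sub_distrib]

lemma hB_expand {n : ℕ} (B : (Fin n → ℂ) →L[ℝ] (Fin n → ℂ) →L[ℝ] ℝ) (ξ : Fin n → ℂ) :
    ∑ j, ∑ k, hB B (Pi.single j 1) (Pi.single k 1) * ξ j * (starRingEnd ℂ) (ξ k) = hB B ξ ξ := by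
  have h : ξ = ∑ j, ξ j • (Pi.single j (1 : ℂ) : Fin n → ℂ) := by
    ext i
    simp [Finset.sum_apply, Pi.single_apply]
  conv_rhs => rw [h]
  rw [hB_sum_left]
  refine Finset.sum_congr rfl fun j _ => ?_
  rw [hB_sum_right]
  refine Finset.sum_congr rfl fun k _ => ?_
  rw [hB_smul_left, hB_smul_right]
  ring


lemma single_I {n : ℕ} (j : Fin n) : (Pi.single j I : Fin n → ℂ) = I • Pi.single j (1 : ℂ) := by
  ext i
  by_cases h : i = j
  · subst h; simp
  · simp [h]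

/-- The Levi form is `(1/4) (D²φ(ξ, ξ) + D²φ(iξ, iξ))`. -/
lemma levi_eq {n : ℕ} (φ : (Fin n → ℂ) → ℝ) (z ξ : Fin n → ℂ) (h : ContDiffAt ℝ 2 φ z) :
    levi φ z ξ = (((D2 φ z ξ ξ + D2 φ z (I • ξ) (I • ξ)) / 4 : ℝ) : ℂ) := by
  have hB1 : ∀ j k : Fin n, dz j (dzbar k (fun x => (φ x : ℂ))) z =
      (1 / 4) * hB (fderiv ℝ (fderiv ℝ φ) z) (Pi.single j 1) (Pi.single k 1) := by
    intro j k
    rw [dz_dzbar j k φ z h]
    simp only [hB, D2, single_I]
  have hsymm : fderiv ℝ (fderiv ℝ φ) z ξ (I • ξ) = fderiv ℝ (fderiv ℝ φ) z (I • ξ) ξ := by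
    have : IsSymmSndFDerivAt ℝ φ z := h.isSymmSndFDerivAt (by simp)
    exact this ξ (I • ξ)
  have h2 : levi φ z ξ = (1 / 4) * hB (fderiv ℝ (fderiv ℝ φ) z) ξ ξ := by
    rw [← hB_expand, Finset.mul_sum]
    unfold levi
    refine Finset.sum_congr rfl fun j _ => ?_
    rw [Finset.mul_sum]
    refine Finset.sum_congr rfl fun k _ => ?_
    rw [hB1]
    ring
  rw [h2]
  unfold hB
  rw [hsymm]
  simp [D2]
  ring

lemma D2_line {E : Type*} [NormedAddCommGroup E] [NormedSpace ℝ E] {φ : E → ℝ} {z : E}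
    (h : ContDiffAt ℝ 2 φ z) (ξ : E) :
    deriv (deriv (fun t : ℝ => φ (z + t • ξ))) 0 = D2 φ z ξ ξ := by
  have h1 : ∀ᶠ x in 𝓝 z, ContDiffAt ℝ 2 φ x := h.eventually (by simp)
  have hc : Continuous (fun t : ℝ => z + t • ξ) := by fun_prop
  have hc0 : Tendsto (fun t : ℝ => z + t • ξ) (𝓝 0) (𝓝 z) := by
    have := hc.tendsto 0
    simpa using this
  have hline : ∀ t : ℝ, HasDerivAt (fun t : ℝ => z + t • ξ) ξ t := by
    intro t
    have := ((hasDerivAt_id t).smul_const ξ).const_add z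
    simpa using this
  have key : deriv (fun t : ℝ => φ (z + t • ξ)) =ᶠ[𝓝 0] fun t => fderiv ℝ φ (z + t • ξ) ξ := by
    filter_upwards [hc0.eventually h1] with t ht
    have hd : DifferentiableAt ℝ φ (z + t • ξ) := ht.differentiableAt (by simp)
    exact (hd.hasFDerivAt.comp_hasDerivAt t (hline t)).deriv
  rw [key.deriv_eq]
  have hf : DifferentiableAt ℝ (fderiv ℝ φ) z := by
    have : ContDiffAt ℝ 1 (fderiv ℝ φ) z := h.fderiv_right (by norm_num)
    exact this.differentiableAt (by simp)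
  have hf' : HasFDerivAt (fderiv ℝ φ) (fderiv ℝ (fderiv ℝ φ) z) (z + (0:ℝ) • ξ) := by
    simpa using hf.hasFDerivAt
  have h2 : HasDerivAt (fun t : ℝ => fderiv ℝ φ (z + t • ξ)) (fderiv ℝ (fderiv ℝ φ) z ξ) 0 :=
    hf'.comp_hasDerivAt 0 (hline 0)
  have h3 : HasDerivAt (fun t : ℝ => fderiv ℝ φ (z + t • ξ) ξ) (fderiv ℝ (fderiv ℝ φ) z ξ ξ) 0 := by
    have := h2.clm_apply (hasDerivAt_const (0:ℝ) ξ)
    simpa using this
  exact h3.deriv

lemma deriv_deriv_nonpos {f : ℝ → ℝ} (hf : ContinuousAt f 0) (hmax : IsLocalMax f 0) :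
    deriv (deriv f) 0 ≤ 0 := by
  by_contra hcon
  push Not at hcon
  have hd : deriv f 0 = 0 := hmax.deriv_eq_zero
  have hmin := isLocalMin_of_deriv_deriv_pos hcon hd hf
  have hconst : f =ᶠ[𝓝 0] fun _ => f 0 := by
    filter_upwards [hmax, hmin] with x h1 h2
    exact le_antisymm h1 h2
  have : deriv (deriv f) 0 = 0 := by
    rw [hconst.deriv.deriv_eq]
    simp
  linarith

lemma D2_nonpos_of_isLocalMax {E : Type*} [NormedAddCommGroup E] [NormedSpace ℝ E] {φ : E → ℝ} {z : E}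
    (h : ContDiffAt ℝ 2 φ z) (hmax : IsLocalMax φ z) (ξ : E) : D2 φ z ξ ξ ≤ 0 := by
  rw [← D2_line h ξ]
  have hc : Continuous (fun t : ℝ => z + t • ξ) := by fun_prop
  have hc0 : Tendsto (fun t : ℝ => z + t • ξ) (𝓝 0) (𝓝 z) := by
    have := hc.tendsto 0
    simpa using this
  apply deriv_deriv_nonpos
  · have : ContinuousAt φ (z + (0:ℝ) • ξ) := by simpa using h.continuousAt
    exact ContinuousAt.comp this hc.continuousAt
  · have := hc0.eventually hmax
    filter_upwards [this] with t ht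
    simpa using ht

lemma laplacian_eq_D2 (f : ℂ → ℝ) (z : ℂ) : (Δ f) z = D2 f z 1 1 + D2 f z I I := by
  simp [laplacian_eq_iteratedFDeriv_complexPlane, iteratedFDeriv_two_apply, D2]

lemma contDiffAt_normSq (c z : ℂ) : ContDiffAt ℝ 2 (fun x : ℂ => ‖x - c‖ ^ 2) z :=
  (contDiffAt_id.sub contDiffAt_const).norm_sq ℝ

lemma laplacian_normSq (c z : ℂ) : (Δ (fun x : ℂ => ‖x - c‖ ^ 2)) z = 4 := by
  have hcd : ContDiffAt ℝ 2 (fun x : ℂ => ‖x - c‖ ^ 2) z := contDiffAt_normSq c z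
  rw [laplacian_eq_D2, ← D2_line hcd 1, ← D2_line hcd I]
  have e1 : (fun t : ℝ => ‖z + t • (1:ℂ) - c‖ ^ 2) =
      fun t : ℝ => ((z - c).re + t) ^ 2 + ((z - c).im) ^ 2 := by
    ext t
    rw [← normSq_eq_norm_sq, normSq_apply]
    simp
    ring
  have e2 : (fun t : ℝ => ‖z + t • I - c‖ ^ 2) =
      fun t : ℝ => ((z - c).re) ^ 2 + ((z - c).im + t) ^ 2 := by
    ext t
    rw [← normSq_eq_norm_sq, normSq_apply]
    simp
    ring
  have d1 : ∀ a b : ℝ, deriv (deriv (fun t : ℝ => (a + t) ^ 2 + b ^ 2)) 0 = 2 := by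
    intro a b
    have : deriv (fun t : ℝ => (a + t) ^ 2 + b ^ 2) = fun t => 2 * (a + t) := by
      ext t
      have h : HasDerivAt (fun t : ℝ => (a + t) ^ 2 + b ^ 2) (2 * (a + t)) t := by
        have := (((hasDerivAt_id t).const_add a).pow 2).add_const (b ^ 2)
        simpa using this
      exact h.deriv
    rw [this]
    have h : HasDerivAt (fun t : ℝ => 2 * (a + t)) 2 0 := by
      have := ((hasDerivAt_id (0:ℝ)).const_add a).const_mul 2
      simpa using this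
    exact h.deriv
  rw [e1, e2, d1]
  have : (fun t : ℝ => ((z - c).re) ^ 2 + ((z - c).im + t) ^ 2) = (fun t : ℝ => ((z - c).im + t) ^ 2 + ((z - c).re) ^ 2) := by
    ext t; ring
  rw [this, d1]
  norm_num

lemma laplacian_log {c z : ℂ} (hz : z ≠ c) : (Δ (fun x : ℂ => Real.log ‖x - c‖)) z = 0 := by
  have h : AnalyticAt ℂ (fun x : ℂ => x - c) z := by fun_prop
  have := AnalyticAt.harmonicAt_log_norm h (sub_ne_zero.mpr hz)
  exact this.2.eq_of_nhds

lemma contDiffAt_log {c z : ℂ} (hz : z ≠ c) : ContDiffAt ℝ 2 (fun x : ℂ => Real.log ‖x - c‖) z := by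
  have h : AnalyticAt ℂ (fun x : ℂ => x - c) z := by fun_prop
  have := AnalyticAt.harmonicAt_log_norm h (sub_ne_zero.mpr hz)
  exact this.1

/-- the three circles / annulus maximum principle -/
lemma annulus_max {v : ℂ → ℝ} {c : ℂ} {r R m a : ℝ} (hr : 0 < r) (hrR : r < R)
    (hv : ∀ x, r ≤ ‖x - c‖ → ‖x - c‖ ≤ R → ContDiffAt ℝ 2 v x)
    (hΔ : ∀ x, r ≤ ‖x - c‖ → ‖x - c‖ ≤ R → 0 ≤ (Δ v) x)
    (h1 : ∀ x, ‖x - c‖ = r → v x ≤ m)
    (h2 : ∀ x, ‖x - c‖ = R → v x ≤ m + a * Real.log (R / r))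
    {x : ℂ} (hx1 : r ≤ ‖x - c‖) (hx2 : ‖x - c‖ ≤ R) :
    v x ≤ m + a * Real.log (‖x - c‖ / r) := by
  have hR : 0 < R := hr.trans hrR
  -- compact annulus
  set A : Set ℂ := {x | r ≤ ‖x - c‖ ∧ ‖x - c‖ ≤ R} with hA
  have hcn : Continuous (fun x : ℂ => ‖x - c‖) := by fun_prop
  have hAcl : IsClosed A := (isClosed_le continuous_const hcn).inter (isClosed_le hcn continuous_const)
  have hAcomp : IsCompact A := by
    apply IsCompact.of_isClosed_subset (isCompact_closedBall c R) hAcl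
    intro y hy
    simpa [dist_eq_norm] using hy.2
  have main : ∀ ε : ℝ, 0 < ε → v x ≤ m + a * Real.log (‖x - c‖ / r) + ε * R ^ 2 := by
    intro ε hε
    let h : ℂ → ℝ := (v - a • (fun x : ℂ => Real.log ‖x - c‖)) + ε • (fun x : ℂ => ‖x - c‖ ^ 2)
    have hne : ∀ y ∈ A, y ≠ c := by
      rintro y hy rfl
      have := hy.1
      simp at this
      linarith
    have hcd : ∀ y ∈ A, ContDiffAt ℝ 2 h y := by
      intro y hy
      have e1 := hv y hy.1 hy.2
      have e2 := (contDiffAt_log (hne y hy)).const_smul a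
      have e3 : ContDiffAt ℝ 2 (fun x : ℂ => ‖x - c‖ ^ 2) y := contDiffAt_normSq c y
      exact (e1.sub e2).add (e3.const_smul ε)
    have hlap : ∀ y ∈ A, 0 < (Δ h) y := by
      intro y hy
      have e1 := hv y hy.1 hy.2
      have e2 := (contDiffAt_log (hne y hy))
      have e3 : ContDiffAt ℝ 2 (fun x : ℂ => ‖x - c‖ ^ 2) y := contDiffAt_normSq c y
      have : (Δ h) y = (Δ v) y - a • 0 + ε • 4 := by
        change (Δ ((v - a • (fun x : ℂ => Real.log ‖x - c‖)) + ε • (fun x : ℂ => ‖x - c‖ ^ 2))) y = _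
        have s1 : ContDiffAt ℝ 2 (a • (fun x : ℂ => Real.log ‖x - c‖)) y := e2.const_smul a
        have s2 : ContDiffAt ℝ 2 (ε • (fun x : ℂ => ‖x - c‖ ^ 2)) y := e3.const_smul ε
        have s3 : ContDiffAt ℝ 2 (v - a • (fun x : ℂ => Real.log ‖x - c‖)) y := e1.sub s1
        rw [ContDiffAt.laplacian_add s3 s2, ContDiffAt.laplacian_sub e1 s1,
          laplacian_smul a e2, laplacian_smul ε e3, laplacian_log (hne y hy), laplacian_normSq]
      rw [this]
      have := hΔ y hy.1 hy.2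
      simp only [smul_eq_mul]
      nlinarith
    have hcont : ContinuousOn h A := fun y hy => (hcd y hy).continuousAt.continuousWithinAt
    obtain ⟨y, hyA, hymax⟩ := hAcomp.exists_isMaxOn ⟨x, hx1, hx2⟩ hcont
    have hxy : h x ≤ h y := hymax ⟨hx1, hx2⟩
    have hybd : ‖y - c‖ = r ∨ ‖y - c‖ = R := by
      by_contra hcon
      push Not at hcon
      have hyr : r < ‖y - c‖ := lt_of_le_of_ne hyA.1 (Ne.symm hcon.1)
      have hyR : ‖y - c‖ < R := lt_of_le_of_ne hyA.2 hcon.2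
      have hopen : IsOpen {x : ℂ | r < ‖x - c‖ ∧ ‖x - c‖ < R} :=
        (isOpen_lt continuous_const hcn).inter (isOpen_lt hcn continuous_const)
      have hmax : IsLocalMax h y := by
        filter_upwards [hopen.mem_nhds ⟨hyr, hyR⟩] with w hw
        exact hymax ⟨hw.1.le, hw.2.le⟩
      have := hlap y hyA
      rw [laplacian_eq_D2] at this
      have i1 := D2_nonpos_of_isLocalMax (hcd y hyA) hmax 1
      have i2 := D2_nonpos_of_isLocalMax (hcd y hyA) hmax I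
      linarith
    have hy' : h y ≤ m - a * Real.log r + ε * R ^ 2 := by
      change v y - a * Real.log ‖y - c‖ + ε * ‖y - c‖ ^ 2 ≤ _
      rcases hybd with hy | hy
      · rw [hy]
        have := h1 y hy
        have : ε * r ^ 2 ≤ ε * R ^ 2 := by gcongr
        linarith
      · rw [hy]
        have := h2 y hy
        rw [Real.log_div hR.ne' hr.ne'] at this
        linarith
    have hx' : v x - a * Real.log ‖x - c‖ + ε * ‖x - c‖ ^ 2 ≤ m - a * Real.log r + ε * R ^ 2 :=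
      hxy.trans hy'
    have hxc : 0 < ‖x - c‖ := lt_of_lt_of_le hr hx1
    rw [Real.log_div hxc.ne' hr.ne']
    have : 0 ≤ ε * ‖x - c‖ ^ 2 := by positivity
    linarith
  refine le_of_forall_pos_le_add fun η hη => ?_
  have := main (η / R ^ 2) (by positivity)
  rwa [div_mul_cancel₀] at this
  positivity


/-! ## The two domains -/

/-- The larger domain. -/
def Om (m : ℕ) : Set (Fin (m + 2) → ℂ) :=
  {z | (∀ j, j ≠ 0 → ‖z j‖ < 1) ∧ ‖z 0 * z 1‖ < 1 ∧ (z 1 = 0 → ‖z 0‖ < 1)}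

/-- The polydisc. -/
def om (n : ℕ) : Set (Fin n → ℂ) := {z | ∀ j, ‖z j‖ < 1}

lemma isOpen_om (n : ℕ) : IsOpen (om n) := by
  have : om n = ⋂ j, {z : Fin n → ℂ | ‖z j‖ < 1} := by
    ext z; simp [om]
  rw [this]
  exact isOpen_iInter_of_finite fun j => isOpen_lt (by fun_prop) continuous_const

lemma isOpen_Om (m : ℕ) : IsOpen (Om m) := by
  have : Om m = (⋂ j, {z : Fin (m + 2) → ℂ | j ≠ 0 → ‖z j‖ < 1}) ∩
      ({z : Fin (m + 2) → ℂ | ‖z 0 * z 1‖ < 1} ∩
        ({z : Fin (m + 2) → ℂ | z 1 ≠ 0} ∪ {z : Fin (m + 2) → ℂ | ‖z 0‖ < 1})) := by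
    ext z
    simp only [Om, mem_ofPred_eq, mem_inter_iff, mem_iInter, mem_union, ne_eq]
    tauto
  rw [this]
  refine IsOpen.inter ?_ (IsOpen.inter ?_ (IsOpen.union ?_ ?_))
  · refine isOpen_iInter_of_finite fun j => ?_
    by_cases hj : j = 0
    · simp [hj]
    · simp only [ne_eq, hj, not_false_eq_true, forall_true_left]
      exact isOpen_lt (by fun_prop) continuous_const
  · exact isOpen_lt (by fun_prop) continuous_const
  · exact isOpen_ne_fun (by fun_prop) continuous_const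
  · exact isOpen_lt (by fun_prop) continuous_const

lemma zero_mem_Om (m : ℕ) : (0 : Fin (m + 2) → ℂ) ∈ Om m := by
  simp [Om]

lemma isConnected_Om (m : ℕ) : IsConnected (Om m) := by
  have hstar : StarConvex ℝ (0 : Fin (m + 2) → ℂ) (Om m) := by
    rw [starConvex_zero_iff]
    intro z hz t ht0 ht1
    obtain ⟨h1, h2, h3⟩ := hz
    refine ⟨fun j hj => ?_, ?_, ?_⟩
    · have := h1 j hj
      simp only [Pi.smul_apply, norm_smul, Real.norm_eq_abs, abs_of_nonneg ht0]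
      nlinarith [norm_nonneg (z j)]
    · simp only [Pi.smul_apply, norm_mul, norm_smul, Real.norm_eq_abs, abs_of_nonneg ht0]
      rw [norm_mul] at h2
      have e : t * ‖z 0‖ * (t * ‖z 1‖) = (t * t) * (‖z 0‖ * ‖z 1‖) := by ring
      rw [e]
      have : t * t ≤ 1 := by nlinarith
      have h5 : 0 ≤ ‖z 0‖ * ‖z 1‖ := by positivity
      nlinarith [mul_nonneg ht0 ht0]
    · intro hz1
      simp only [Pi.smul_apply, smul_eq_zero] at hz1
      simp only [Pi.smul_apply, norm_smul, Real.norm_eq_abs, abs_of_nonneg ht0]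
      rcases hz1 with h | h
      · simp [h]
      · have := h3 h
        nlinarith [norm_nonneg (z 0)]
  exact (hstar.isPathConnected (zero_mem_Om m)).isConnected

lemma isConnected_om (n : ℕ) : IsConnected (om n) := by
  have hstar : StarConvex ℝ (0 : Fin n → ℂ) (om n) := by
    rw [starConvex_zero_iff]
    intro z hz t ht0 ht1 j
    have := hz j
    simp only [Pi.smul_apply, norm_smul, Real.norm_eq_abs, abs_of_nonneg ht0]
    nlinarith [norm_nonneg (z j)]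
  exact (hstar.isPathConnected (by simp [om])).isConnected

lemma om_subset_Om (m : ℕ) : om (m + 2) ⊆ Om m := by
  intro z hz
  refine ⟨fun j _ => hz j, ?_, fun _ => hz 0⟩
  rw [norm_mul]
  have h0 := hz 0
  have h1 := hz 1
  nlinarith [norm_nonneg (z 0), norm_nonneg (z 1)]

/-! ## The test functions -/

lemma deriv_deriv_poly (a b c d e : ℝ) :
    deriv (deriv (fun t : ℝ => a + b * t + c * t ^ 2 + d * t ^ 3 + e * t ^ 4)) 0 = 2 * c := by
  have h1 : deriv (fun t : ℝ => a + b * t + c * t ^ 2 + d * t ^ 3 + e * t ^ 4) =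
      fun t => b + 2 * c * t + 3 * d * t ^ 2 + 4 * e * t ^ 3 := by
    ext t
    have h : HasDerivAt (fun t : ℝ => a + b * t + c * t ^ 2 + d * t ^ 3 + e * t ^ 4)
        (b + 2 * c * t + 3 * d * t ^ 2 + 4 * e * t ^ 3) t := by
      have h1 := (hasDerivAt_id t).const_mul b
      have h2 := (hasDerivAt_pow 2 t).const_mul c
      have h3 := (hasDerivAt_pow 3 t).const_mul d
      have h4 := (hasDerivAt_pow 4 t).const_mul e
      have := (((h1.const_add a).add h2).add h3).add h4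
      refine this.congr_deriv ?_
      simp
      ring
    exact h.deriv
  rw [h1]
  have h : HasDerivAt (fun t : ℝ => b + 2 * c * t + 3 * d * t ^ 2 + 4 * e * t ^ 3) (2 * c) 0 := by
    have h1 := (hasDerivAt_id (0:ℝ)).const_mul (2 * c)
    have h2 := (hasDerivAt_pow 2 (0:ℝ)).const_mul (3 * d)
    have h3 := (hasDerivAt_pow 3 (0:ℝ)).const_mul (4 * e)
    have := ((h1.const_add b).add h2).add h3
    refine this.congr_deriv ?_
    simp
  exact h.deriv

lemma normSq_line (a b : ℂ) (t : ℝ) :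
    ‖a + t * b‖ ^ 2 = ‖a‖ ^ 2 + 2 * (a.re * b.re + a.im * b.im) * t + ‖b‖ ^ 2 * t ^ 2 := by
  rw [← normSq_eq_norm_sq, ← normSq_eq_norm_sq, ← normSq_eq_norm_sq, normSq_apply, normSq_apply,
    normSq_apply]
  simp
  ring

lemma normSq_line2 (a b c : ℂ) (t : ℝ) :
    ‖a + t * b + t ^ 2 * c‖ ^ 2 = ‖a‖ ^ 2 + 2 * (a.re * b.re + a.im * b.im) * t
      + (‖b‖ ^ 2 + 2 * (a.re * c.re + a.im * c.im)) * t ^ 2
      + 2 * (b.re * c.re + b.im * c.im) * t ^ 3 + ‖c‖ ^ 2 * t ^ 4 := by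
  rw [← normSq_eq_norm_sq, ← normSq_eq_norm_sq, ← normSq_eq_norm_sq, ← normSq_eq_norm_sq,
    normSq_apply, normSq_apply, normSq_apply, normSq_apply]
  simp [pow_two]
  ring

/-- `|z|²`. -/
noncomputable def psi1 (n : ℕ) (z : Fin n → ℂ) : ℝ := ∑ j, ‖z j‖ ^ 2

lemma contDiff_psi1 (n : ℕ) {k : WithTop ℕ∞} : ContDiff ℝ k (psi1 n) := by
  unfold psi1
  exact ContDiff.sum fun j _ => (contDiff_apply ℝ ℂ j).norm_sq ℝ

lemma levi_psi1 (n : ℕ) (z ξ : Fin n → ℂ) : levi (psi1 n) z ξ = ((∑ j, ‖ξ j‖ ^ 2 : ℝ) : ℂ) := by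
  rw [levi_eq _ _ _ (contDiff_psi1 n).contDiffAt]
  have key : ∀ ζ : Fin n → ℂ, D2 (psi1 n) z ζ ζ = 2 * ∑ j, ‖ζ j‖ ^ 2 := by
    intro ζ
    rw [← D2_line (contDiff_psi1 n).contDiffAt ζ]
    have e : (fun t : ℝ => psi1 n (z + t • ζ)) = fun t : ℝ =>
        (∑ j, ‖z j‖ ^ 2) + (∑ j, 2 * ((z j).re * (ζ j).re + (z j).im * (ζ j).im)) * t
        + (∑ j, ‖ζ j‖ ^ 2) * t ^ 2 + 0 * t ^ 3 + 0 * t ^ 4 := by
      ext t
      unfold psi1
      have : ∀ j, ‖(z + t • ζ) j‖ ^ 2 = ‖z j‖ ^ 2 + 2 * ((z j).re * (ζ j).re + (z j).im * (ζ j).im) * t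
          + ‖ζ j‖ ^ 2 * t ^ 2 := by
        intro j
        rw [← normSq_line]
        simp [real_smul]
      simp only [this, Finset.sum_add_distrib, Finset.sum_mul]
      ring
    rw [e, deriv_deriv_poly]
  rw [key, key]
  congr 1
  simp
  ring

/-- `∑_{j ≠ 0} |z_j|² + |z_0 z_1|²`. -/
noncomputable def psi0 (m : ℕ) (z : Fin (m + 2) → ℂ) : ℝ :=
  (∑ j : Fin (m + 1), ‖z j.succ‖ ^ 2) + ‖z 0 * z 1‖ ^ 2

lemma contDiff_psi0 (m : ℕ) {k : WithTop ℕ∞} : ContDiff ℝ k (psi0 m) := by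
  unfold psi0
  refine ContDiff.add ?_ ?_
  · exact ContDiff.sum fun j _ => (contDiff_apply ℝ ℂ j.succ).norm_sq ℝ
  · exact ((contDiff_apply ℝ ℂ 0).mul (contDiff_apply ℝ ℂ 1)).norm_sq ℝ

lemma levi_psi0 (m : ℕ) (z ξ : Fin (m + 2) → ℂ) : levi (psi0 m) z ξ =
    (((∑ j : Fin (m + 1), ‖ξ j.succ‖ ^ 2) + ‖z 1 * ξ 0 + z 0 * ξ 1‖ ^ 2 : ℝ) : ℂ) := by
  rw [levi_eq _ _ _ (contDiff_psi0 m).contDiffAt]
  have key : ∀ ζ : Fin (m + 2) → ℂ, D2 (psi0 m) z ζ ζ = 2 * ((∑ j : Fin (m + 1), ‖ζ j.succ‖ ^ 2)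
      + (‖z 0 * ζ 1 + z 1 * ζ 0‖ ^ 2 + 2 * ((z 0 * z 1).re * (ζ 0 * ζ 1).re +
        (z 0 * z 1).im * (ζ 0 * ζ 1).im))) := by
    intro ζ
    rw [← D2_line (contDiff_psi0 m).contDiffAt ζ]
    have e : (fun t : ℝ => psi0 m (z + t • ζ)) = fun t : ℝ =>
        ((∑ j : Fin (m + 1), ‖z j.succ‖ ^ 2) + ‖z 0 * z 1‖ ^ 2)
        + ((∑ j : Fin (m + 1), 2 * ((z j.succ).re * (ζ j.succ).re + (z j.succ).im * (ζ j.succ).im))
          + 2 * ((z 0 * z 1).re * (z 0 * ζ 1 + z 1 * ζ 0).re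
            + (z 0 * z 1).im * (z 0 * ζ 1 + z 1 * ζ 0).im)) * t
        + ((∑ j : Fin (m + 1), ‖ζ j.succ‖ ^ 2)
          + (‖z 0 * ζ 1 + z 1 * ζ 0‖ ^ 2 + 2 * ((z 0 * z 1).re * (ζ 0 * ζ 1).re +
        (z 0 * z 1).im * (ζ 0 * ζ 1).im))) * t ^ 2
        + 2 * ((z 0 * ζ 1 + z 1 * ζ 0).re * (ζ 0 * ζ 1).re
          + (z 0 * ζ 1 + z 1 * ζ 0).im * (ζ 0 * ζ 1).im) * t ^ 3
        + ‖ζ 0 * ζ 1‖ ^ 2 * t ^ 4 := by
      ext t
      unfold psi0
      have h1 : ∀ j : Fin (m + 1), ‖(z + t • ζ) j.succ‖ ^ 2 = ‖z j.succ‖ ^ 2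
          + 2 * ((z j.succ).re * (ζ j.succ).re + (z j.succ).im * (ζ j.succ).im) * t
          + ‖ζ j.succ‖ ^ 2 * t ^ 2 := by
        intro j
        rw [← normSq_line]
        simp [real_smul]
      have h2 : ‖(z + t • ζ) 0 * (z + t • ζ) 1‖ ^ 2 =
          ‖z 0 * z 1 + t * (z 0 * ζ 1 + z 1 * ζ 0) + t ^ 2 * (ζ 0 * ζ 1)‖ ^ 2 := by
        congr 2
        simp [real_smul]
        ring
      rw [h2, normSq_line2]
      simp only [h1, Finset.sum_add_distrib, ← Finset.sum_mul]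
      ring
    rw [e, deriv_deriv_poly]
  rw [key, key]
  congr 1
  have e1 : z 0 * (I • ξ) 1 + z 1 * (I • ξ) 0 = I * (z 0 * ξ 1 + z 1 * ξ 0) := by
    simp; ring
  have e2 : (I • ξ) 0 * (I • ξ) 1 = - (ξ 0 * ξ 1) := by
    simp
    linear_combination (ξ 0 * ξ 1) * I_mul_I
  have e3 : z 1 * ξ 0 + z 0 * ξ 1 = z 0 * ξ 1 + z 1 * ξ 0 := by ring
  rw [e1, e2, e3, norm_mul, norm_I]
  simp only [Pi.smul_apply, norm_smul, norm_I, one_mul, neg_re, neg_im]
  ring


/-! ## The core of the polydisc is empty -/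

lemma core_om (n : ℕ) : core (om n) = ∅ := by
  rw [Set.eq_empty_iff_forall_notMem]
  rintro z ⟨hz, hcon⟩
  apply hcon
  refine ⟨psi1 n, ⟨(contDiff_psi1 n).contDiffOn, fun w _ ξ => ?_⟩, ?_, fun ξ hξ => ?_⟩
  · rw [levi_psi1]
    rw [Complex.zero_le_real]
    positivity
  · refine ⟨n, ?_⟩
    rintro _ ⟨w, hw, rfl⟩
    unfold psi1
    calc ∑ j, ‖w j‖ ^ 2 ≤ ∑ _j : Fin n, (1 : ℝ) := by
          refine Finset.sum_le_sum fun j _ => ?_
          have := hw j
          nlinarith [norm_nonneg (w j)]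
      _ = n := by simp
  · rw [levi_psi1]
    rw [Complex.zero_lt_real]
    obtain ⟨j, hj⟩ : ∃ j, ξ j ≠ 0 := by
      by_contra hc
      push Not at hc
      exact hξ (funext hc)
    have h1 : 0 < ‖ξ j‖ ^ 2 := by positivity
    have h2 : ‖ξ j‖ ^ 2 ≤ ∑ j, ‖ξ j‖ ^ 2 :=
      Finset.single_le_sum (f := fun j => ‖ξ j‖ ^ 2) (fun i _ => by positivity) (Finset.mem_univ j)
    linarith

/-! ## The core of the larger domain -/

lemma core_Om_subset (m : ℕ) {z : Fin (m + 2) → ℂ} (hz : z ∈ core (Om m)) : z 1 = 0 := by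
  by_contra hz1
  obtain ⟨hzO, hcon⟩ := hz
  apply hcon
  refine ⟨psi0 m, ⟨(contDiff_psi0 m).contDiffOn, fun w _ ξ => ?_⟩, ?_, fun ξ hξ => ?_⟩
  · rw [levi_psi0]
    rw [Complex.zero_le_real]
    positivity
  · refine ⟨m + 1 + 1, ?_⟩
    rintro _ ⟨w, hw, rfl⟩
    unfold psi0
    have h1 : ∑ j : Fin (m + 1), ‖w j.succ‖ ^ 2 ≤ m + 1 := by
      calc ∑ j : Fin (m + 1), ‖w j.succ‖ ^ 2 ≤ ∑ _j : Fin (m + 1), (1 : ℝ) := by
            refine Finset.sum_le_sum fun j _ => ?_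
            have := hw.1 j.succ (Fin.succ_ne_zero j)
            nlinarith [norm_nonneg (w j.succ)]
        _ = m + 1 := by simp
    have h2 : ‖w 0 * w 1‖ ^ 2 ≤ 1 := by
      have := hw.2.1
      nlinarith [norm_nonneg (w 0 * w 1)]
    linarith
  · rw [levi_psi0]
    rw [Complex.zero_lt_real]
    by_contra hc
    push Not at hc
    have h1 : 0 ≤ ∑ j : Fin (m + 1), ‖ξ j.succ‖ ^ 2 := by positivity
    have h2 : 0 ≤ ‖z 1 * ξ 0 + z 0 * ξ 1‖ ^ 2 := by positivity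
    have h3 : ∑ j : Fin (m + 1), ‖ξ j.succ‖ ^ 2 = 0 := by linarith
    have h4 : ‖z 1 * ξ 0 + z 0 * ξ 1‖ ^ 2 = 0 := by linarith
    rw [Finset.sum_eq_zero_iff_of_nonneg (fun i _ => by positivity)] at h3
    have h5 : ∀ j : Fin (m + 1), ξ j.succ = 0 := by
      intro j
      have := h3 j (Finset.mem_univ j)
      simpa using this
    have h6 : ξ 1 = 0 := h5 0
    have h7 : z 1 * ξ 0 + z 0 * ξ 1 = 0 := by simpa using h4
    rw [h6, mul_zero, add_zero, mul_eq_zero] at h7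
    have h8 : ξ 0 = 0 := h7.resolve_left hz1
    apply hξ
    ext j
    refine Fin.cases ?_ (fun j => ?_) j
    · simpa using h8
    · simpa using h5 j

/-- The affine map used to slice: the point `p` with its `0`-th coordinate replaced by `ζ` and with
`w` added to the coordinate number `1`. -/
noncomputable def slice {m : ℕ} (p : Fin (m + 2) → ℂ) (ζ w : ℂ) : Fin (m + 2) → ℂ :=
  p + Pi.single 0 (ζ - p 0) + Pi.single 1 w

lemma slice_zero {m : ℕ} (p : Fin (m + 2) → ℂ) (ζ w : ℂ) : slice p ζ w 0 = ζ := by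
  simp [slice]

lemma slice_one {m : ℕ} (p : Fin (m + 2) → ℂ) (ζ w : ℂ) : slice p ζ w 1 = p 1 + w := by
  simp [slice]

lemma slice_other {m : ℕ} (p : Fin (m + 2) → ℂ) (ζ w : ℂ) (j : Fin (m + 2)) (h0 : j ≠ 0)
    (h1 : j ≠ 1) : slice p ζ w j = p j := by
  simp [slice, h0, h1]

lemma slice_self {m : ℕ} (p : Fin (m + 2) → ℂ) : slice p (p 0) 0 = p := by
  simp [slice]

lemma slice_mem {m : ℕ} {p : Fin (m + 2) → ℂ} (hp : p ∈ Om m) (hp1 : p 1 = 0) {ζ w : ℂ}
    (hw : ‖w‖ < 1) (hζ : ‖ζ * w‖ < 1) (h0 : w = 0 → ‖ζ‖ < 1) : slice p ζ w ∈ Om m := by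
  refine ⟨fun j hj => ?_, ?_, ?_⟩
  · by_cases h1 : j = 1
    · subst h1
      rw [slice_one, hp1, zero_add]
      exact hw
    · rw [slice_other p ζ w j hj h1]
      exact hp.1 j hj
  · rw [slice_zero, slice_one, hp1, zero_add]
    exact hζ
  · rw [slice_zero, slice_one, hp1, zero_add]
    exact h0

lemma slice_add {m : ℕ} (p : Fin (m + 2) → ℂ) (ζ w u : ℂ) (t : ℝ) :
    slice p (ζ + t • u) w = slice p ζ w + t • (Pi.single 0 u : Fin (m + 2) → ℂ) := by
  ext j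
  by_cases h0 : j = 0
  · subst h0
    simp [slice]
  · by_cases h1 : j = 1
    · subst h1
      simp [slice]
    · simp [slice, h0, h1]

lemma continuous_slice {m : ℕ} (p : Fin (m + 2) → ℂ) :
    Continuous (fun x : ℂ × ℂ => slice p x.1 x.2) := by
  unfold slice
  refine Continuous.add (Continuous.add continuous_const ?_) ?_
  · exact (continuous_single (A := fun _ => ℂ) (0 : Fin (m + 2))).comp (by fun_prop)
  · exact (continuous_single (A := fun _ => ℂ) (1 : Fin (m + 2))).comp (by fun_prop)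

lemma contDiff_slice {m : ℕ} (p : Fin (m + 2) → ℂ) (w : ℂ) :
    ContDiff ℝ 2 (fun ζ : ℂ => slice p ζ w) := by
  rw [contDiff_pi]
  intro j
  by_cases h0 : j = 0
  · subst h0
    simp only [slice_zero]
    exact contDiff_id
  · by_cases h1 : j = 1
    · subst h1
      simp only [slice_one]
      exact contDiff_const
    · simp only [slice_other p _ w j h0 h1]
      exact contDiff_const

lemma D2_slice {m : ℕ} {φ : (Fin (m + 2) → ℂ) → ℝ} {p : Fin (m + 2) → ℂ} {ζ w : ℂ}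
    (h : ContDiffAt ℝ 2 φ (slice p ζ w)) (u : ℂ) :
    D2 (fun x => φ (slice p x w)) ζ u u = D2 φ (slice p ζ w) (Pi.single 0 u) (Pi.single 0 u) := by
  have h1 : ContDiffAt ℝ 2 (fun x => φ (slice p x w)) ζ :=
    ContDiffAt.comp ζ h (contDiff_slice p w).contDiffAt
  rw [← D2_line h1, ← D2_line h]
  congr 2
  ext t
  rw [slice_add]

lemma laplacian_slice {m : ℕ} {φ : (Fin (m + 2) → ℂ) → ℝ} {p : Fin (m + 2) → ℂ} {ζ w : ℂ}
    (h : ContDiffAt ℝ 2 φ (slice p ζ w)) :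
    (((Δ (fun x => φ (slice p x w))) ζ : ℝ) : ℂ) = 4 * levi φ (slice p ζ w) (Pi.single 0 1) := by
  rw [laplacian_eq_D2, D2_slice h, D2_slice h, levi_eq _ _ _ h, single_I]
  push_cast
  ring

lemma two_le_infty : (2 : WithTop ℕ∞) ≤ ∞ := by
  exact WithTop.coe_le_coe.mpr le_top

lemma mem_core_Om (m : ℕ) {p : Fin (m + 2) → ℂ} (hp : p ∈ Om m) (hp1 : p 1 = 0) :
    p ∈ core (Om m) := by
  refine ⟨hp, ?_⟩
  rintro ⟨φ, ⟨hsm, hpsh⟩, ⟨M, hM⟩, hstrict⟩
  have hMle : ∀ z ∈ Om m, φ z ≤ M := fun z hz => hM ⟨z, hz, rfl⟩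
  have hcd : ∀ z ∈ Om m, ContDiffAt ℝ 2 φ z := fun z hz =>
    (hsm.contDiffAt ((isOpen_Om m).mem_nhds hz)).of_le two_le_infty
  have hp0 : ‖p 0‖ < 1 := hp.2.2 hp1
  -- slices are subharmonic
  have hlap : ∀ ζ w, slice p ζ w ∈ Om m → 0 ≤ (Δ (fun x => φ (slice p x w))) ζ := by
    intro ζ w h
    have h1 := hpsh _ h (Pi.single 0 1)
    have h2 := laplacian_slice (hcd _ h)
    have h3 : (0 : ℂ) ≤ (((Δ (fun x => φ (slice p x w))) ζ : ℝ) : ℂ) := by
      rw [h2]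
      exact mul_nonneg (by norm_num) h1
    exact_mod_cast h3
  -- main claim: local maximum
  have hloc : IsLocalMax (fun x => φ (slice p x 0)) (p 0) := by
    have hball : ball (p 0) (1 - ‖p 0‖) ∈ 𝓝 (p 0) := ball_mem_nhds _ (by linarith)
    filter_upwards [hball] with ζ hζ
    rw [slice_self]
    have hζ' : ‖ζ - p 0‖ < 1 - ‖p 0‖ := by simpa [dist_eq_norm] using hζ
    have hζ1 : ‖ζ‖ < 1 := by
      calc ‖ζ‖ = ‖(ζ - p 0) + p 0‖ := by ring_nf
        _ ≤ ‖ζ - p 0‖ + ‖p 0‖ := norm_add_le _ _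
        _ < 1 := by linarith
    by_cases hne : ζ = p 0
    · rw [hne, slice_self]
    have hr2 : 0 < ‖ζ - p 0‖ := norm_pos_iff.mpr (sub_ne_zero.mpr hne)
    refine le_of_forall_pos_le_add fun η hη => ?_
    -- joint continuity at `(p 0, 0)`
    have hcont : ContinuousAt (fun x : ℂ × ℂ => φ (slice p x.1 x.2)) (p 0, 0) := by
      have h1 : ContinuousAt φ (slice p ((p 0, (0:ℂ)) : ℂ × ℂ).1 ((p 0, (0:ℂ)) : ℂ × ℂ).2) := by
        simp only [slice_self]
        exact (hcd p hp).continuousAt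
      exact ContinuousAt.comp (f := fun x : ℂ × ℂ => slice p x.1 x.2) h1
        (continuous_slice p).continuousAt
    have hlt : ∀ᶠ x in 𝓝 ((p 0, 0) : ℂ × ℂ), φ (slice p x.1 x.2) < φ p + η := by
      apply hcont.eventually_lt_const
      simp only [slice_self]
      linarith
    obtain ⟨δ, hδ, hδ'⟩ := Metric.eventually_nhds_iff.mp hlt
    set r := min (δ / 2) (‖ζ - p 0‖ / 2) with hr
    have hr0 : 0 < r := by positivity
    have hrδ : r < δ := lt_of_le_of_lt (min_le_left _ _) (by linarith)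
    have hrζ : r < ‖ζ - p 0‖ := lt_of_le_of_lt (min_le_right _ _) (by linarith)
    have hsmall : ∀ x w : ℂ, ‖x - p 0‖ = r → ‖w‖ < δ → φ (slice p x w) ≤ φ p + η := by
      intro x w hx hw
      have : dist ((x, w) : ℂ × ℂ) (p 0, 0) < δ := by
        rw [Prod.dist_eq]
        simp only [dist_eq_norm, sub_zero]
        exact max_lt (by rw [hx]; exact hrδ) hw
      exact (hδ' this).le
    -- the three circles estimate on the slice at height `t`
    set K : ℝ := max 0 (M - (φ p + η)) * Real.log (‖ζ - p 0‖ / r) with hK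
    have hest : ∀ᶠ t : ℝ in 𝓝[>] (0 : ℝ), φ (slice p ζ (t : ℂ)) ≤
        φ p + η + K / Real.log ((1 / t - 1) / r) := by
      have e1 : ∀ᶠ t in 𝓝[>] (0 : ℝ), t < δ := by
        filter_upwards [Ioo_mem_nhdsGT hδ] with t ht using ht.2
      have e2 : ∀ᶠ t in 𝓝[>] (0 : ℝ), t < 1 / 3 := by
        filter_upwards [Ioo_mem_nhdsGT (show (0:ℝ) < 1/3 by norm_num)] with t ht using ht.2
      filter_upwards [e1, e2, self_mem_nhdsWithin] with t ht1 ht2 ht0
      have ht0 : 0 < t := ht0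
      have hR : 1 < 1 / t - 1 := by
        have : 3 < 1 / t := by
          rw [lt_div_iff₀ ht0]; linarith
        linarith
      have htn : ‖(t : ℂ)‖ = t := by
        rw [norm_real, Real.norm_eq_abs, abs_of_pos ht0]
      have hζR : ‖ζ - p 0‖ < 1 / t - 1 := by
        have := norm_nonneg (p 0)
        linarith
      have hrR : r < 1 / t - 1 := hrζ.trans hζR
      have hmem : ∀ x : ℂ, ‖x - p 0‖ ≤ 1 / t - 1 → slice p x (t : ℂ) ∈ Om m := by
        intro x hx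
        apply slice_mem hp hp1
        · rw [htn]; linarith
        · rw [norm_mul, htn]
          have hx' : ‖x‖ < 1 / t := by
            calc ‖x‖ = ‖(x - p 0) + p 0‖ := by ring_nf
              _ ≤ ‖x - p 0‖ + ‖p 0‖ := norm_add_le _ _
              _ < 1 / t := by linarith
          calc ‖x‖ * t < 1 / t * t := by gcongr
            _ = 1 := by field_simp
        · intro h
          exfalso
          have : (t : ℂ) ≠ 0 := by exact_mod_cast ht0.ne'
          exact this h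
      have hlogR : 0 < Real.log ((1 / t - 1) / r) := by
        apply Real.log_pos
        rw [lt_div_iff₀ hr0]
        linarith
      have hA := annulus_max (v := fun x => φ (slice p x (t : ℂ))) (c := p 0) (r := r)
        (R := 1 / t - 1) (m := φ p + η)
        (a := max 0 (M - (φ p + η)) / Real.log ((1 / t - 1) / r)) hr0 hrR
        (fun x _ hx => ContDiffAt.comp x (hcd _ (hmem x hx)) (contDiff_slice p _).contDiffAt)
        (fun x _ hx => hlap x _ (hmem x hx))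
        (fun x hx => hsmall x _ hx (by rw [htn]; exact ht1))
        (fun x hx => by
          rw [div_mul_cancel₀ _ hlogR.ne']
          have h1 := hMle _ (hmem x hx.le)
          have h2 := le_max_right 0 (M - (φ p + η))
          linarith)
        (x := ζ) hrζ.le hζR.le
      refine hA.trans (le_of_eq ?_)
      rw [hK]
      ring
    have hlim1 : Tendsto (fun t : ℝ => φ (slice p ζ (t : ℂ))) (𝓝[>] 0) (𝓝 (φ (slice p ζ 0))) := by
      have hmem0 : slice p ζ 0 ∈ Om m := by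
        apply slice_mem hp hp1 (by simp) (by simp) (fun _ => hζ1)
      have hc1 : ContinuousAt φ (slice p ζ 0) := (hcd _ hmem0).continuousAt
      have hc2 : Tendsto (fun t : ℝ => slice p ζ (t : ℂ)) (𝓝 0) (𝓝 (slice p ζ 0)) := by
        have hc3 : Continuous (fun t : ℝ => slice p ζ (t : ℂ)) :=
          (continuous_slice p).comp (by fun_prop : Continuous (fun t : ℝ => ((ζ, (t : ℂ)) : ℂ × ℂ)))
        have := hc3.tendsto 0
        simpa using this
      exact (hc1.tendsto.comp hc2).mono_left nhdsWithin_le_nhds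
    have hlim2 : Tendsto (fun t : ℝ => φ p + η + K / Real.log ((1 / t - 1) / r)) (𝓝[>] 0)
        (𝓝 (φ p + η + 0)) := by
      refine Tendsto.add tendsto_const_nhds ?_
      apply Tendsto.div_atTop tendsto_const_nhds
      apply Real.tendsto_log_atTop.comp
      apply Tendsto.atTop_div_const hr0
      have : Tendsto (fun t : ℝ => 1 / t) (𝓝[>] 0) atTop := by
        simpa using tendsto_inv_nhdsGT_zero (𝕜 := ℝ)
      exact tendsto_atTop_add_const_right _ (-1) this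
    rw [add_zero] at hlim2
    exact le_of_tendsto_of_tendsto hlim1 hlim2 hest
  -- conclusion
  have h1 : ContDiffAt ℝ 2 (fun x => φ (slice p x 0)) (p 0) := by
    refine ContDiffAt.comp (p 0) ?_ (contDiff_slice p _).contDiffAt
    rw [slice_self]
    exact hcd p hp
  have h2 := D2_nonpos_of_isLocalMax h1 hloc 1
  have h3 := D2_nonpos_of_isLocalMax h1 hloc I
  have hcdp : ContDiffAt ℝ 2 φ (slice p (p 0) 0) := by
    rw [slice_self]; exact hcd p hp
  have h4 := laplacian_slice (φ := φ) (p := p) (ζ := p 0) (w := 0) hcdp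
  have h5 : 0 < levi φ (slice p (p 0) 0) (Pi.single 0 1) := by
    rw [slice_self]
    apply hstrict
    intro h
    have := congrFun h 0
    simp at this
  have h6 : (0 : ℂ) < (((Δ (fun x => φ (slice p x 0))) (p 0) : ℝ) : ℂ) := by
    rw [h4]
    exact mul_pos (by norm_num) h5
  have h7 : 0 < (Δ (fun x => φ (slice p x 0))) (p 0) := by exact_mod_cast h6
  rw [laplacian_eq_D2] at h7
  linarith

/-- **Main result.** In every dimension `n ≥ 2` there are domains `G ⊆ Ω` of `ℂⁿ` with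
`core Ω ⊆ G` but `core G ≠ core Ω`; in fact `G` is the unit polydisc, whose core is empty, while
`core Ω` is not empty. -/
theorem result (n : ℕ) (hn : 2 ≤ n) :
    ∃ Ω G : Set (Fin n → ℂ), (IsOpen Ω ∧ IsConnected Ω) ∧ (IsOpen G ∧ IsConnected G) ∧ G ⊆ Ω ∧
      core Ω ⊆ G ∧ core G ≠ core Ω ∧ G = {z | ∀ j, ‖z j‖ < 1} ∧ core G = ∅ ∧
      (core Ω).Nonempty := by
  obtain ⟨m, rfl⟩ : ∃ m, n = m + 2 := ⟨n - 2, by omega⟩
  have hne : (core (Om m)).Nonempty := ⟨0, mem_core_Om m (zero_mem_Om m) rfl⟩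
  refine ⟨Om m, om (m + 2), ⟨isOpen_Om m, isConnected_Om m⟩, ⟨isOpen_om _, isConnected_om _⟩,
    om_subset_Om m, ?_, ?_, rfl, core_om _, hne⟩
  · intro z hz
    have hz1 := core_Om_subset m hz
    intro j
    by_cases hj : j = 0
    · subst hj
      exact hz.1.2.2 hz1
    · exact hz.1.1 j hj
  · rw [core_om]
    exact hne.ne_empty.symm

end Pool.Agent.Results.MP_902c37_an.CoreSubdomain
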